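import Pool.Agent.Helper26.DA.All

set_option autoImplicit false

namespace Pool.Agent.Results.MP_05c055_al.DeepImages

open IsLocalRing Pool.Agent.Helper26.DA

universe u v

/-- Let `F` be a finite free complex of length `p` over a noetherian local ring `A` with
`H_0(F) ≠ 0` and a derived action of a local ring `B`, and `J` the annihilator of `H(F ⊗ k)` in `B`.
If `s` elements of the maximal ideal of `A`, linearly independent modulo its square, have images in
`m_B J`, then `s ≤ p`. -/
theorem result {A : Type u} [CommRing A] [IsLocalRing A] [IsNoetherianRing A] {B : Type v} [CommRing B]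
    [IsLocalRing B] [Algebra A B] {F : FC A} (act : DAct A B F) (p : ℕ)
    (hp : ∀ i, p < i → F.r i = 0) (hH : LinearMap.range (F.d 0) ≠ ⊤) (s : ℕ) (b : Fin s → A)
    (hb : ∀ i, b i ∈ maximalIdeal A)
    (hli : ∀ w : Fin s → A, ∑ i, b i * w i ∈ maximalIdeal A ^ 2 → ∀ i, w i ∈ maximalIdeal A)
    (hx : ∀ i, algebraMap A B (b i) ∈ maximalIdeal B * Ideal.span {x | Kills act x}) : s ≤ p :=
  LEMA act p hp hH s b hb hli hx

end Pool.Agent.Results.MP_05c055_al.DeepImages
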