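import Pool.Agent.Helper34.FB.Final3

set_option autoImplicit false

namespace Pool.Agent.Results.MP_05c055_al.FibreEdimTwo

open IsLocalRing Pool.Agent.Helper26.DA Pool.Agent.Helper34.FB

universe u v w

/-- Let `A`, `B` be noetherian local rings, `F` a finite free `A`-complex of length `p` with
`H_0(F) ≠ 0` and a derived `B`-action, `p ≤ edim A - edim B`.  Let `b_1, …, b_s ∈ m_A`,
`s + 2 ≤ edim B`, be such that every artinian quotient `B / ((b_1, …, b_s) B + m_B ^ n)` is a
quotient of a regular local ring of dimension at most two.  (If the closed fibre `B / m_A B` has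
embedding dimension two such `b_i` exist, by Cohen's structure theorem.)  Then `H_0(F)` is a free
`B`-module. -/
theorem result {A : Type u} [CommRing A] [IsLocalRing A] [IsNoetherianRing A]
    {B : Type v} [CommRing B] [IsLocalRing B] [IsNoetherianRing B] [Algebra A B] (F : FC A) (act : DAct A B F)
    (p : ℕ) (hF : ∀ i, p < i → F.r i = 0) (hH : LinearMap.range (F.d 0) ≠ ⊤)
    (hpe : p + edim B ≤ edim A) (s : ℕ) (b : Fin s → A) (hb : ∀ i, b i ∈ maximalIdeal A)
    (hs : s + 2 ≤ edim B) (hQ : ∀ n, QReg2.{v, w} (Quo B b n)) : FreeH0 act :=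
  (final3 F act p hF hH hpe s b hb hs hQ).1

end Pool.Agent.Results.MP_05c055_al.FibreEdimTwo
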