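import Pool.Agent.Helper26.DA.All

set_option autoImplicit false

namespace Pool.Agent.Results.MP_05c055_al.SyzygyMinors

open IsLocalRing Pool.Agent.Helper26.DA

universe u v

/-- Let `F` be a finite free complex of length `p` over a local ring `A` with a derived `B`-action,
`a_1, …, a_e` minimal generators of the maximal ideal of `A` and `x_1, …, x_e` their images in `B`.
The `(p+1) × (p+1)` minors of the syzygies of `(x_1, …, x_e)` over `B` kill `H_i(F ⊗ k)` for all `i`. -/
theorem result {A : Type u} [CommRing A] [IsLocalRing A] {B : Type v} [CommRing B] [Algebra A B]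
    {F : FC A} (act : DAct A B F) {e : ℕ} (a : Fin e → A) (ha : MinGen a) (p : ℕ)
    (hp : ∀ i, p < i → F.r i = 0) (c : Fin (p + 1) → Fin e → B)
    (hc : ∀ i, ∑ l, c i l * algebraMap A B (a l) = 0) (l : Fin (p + 1) → Fin e) :
    Kills act (Matrix.of fun i j => c i (l j)).det :=
  FIT act a ha p hp c hc l

end Pool.Agent.Results.MP_05c055_al.SyzygyMinors
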